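import Pool.Agent.LRS.Stmts

/-!
# LRS row AVG: the sum of the norms to all proper subfields
-/

set_option autoImplicit false

open Polynomial NumberField Filter Topology

namespace Pool.Agent.LRS.H88

open Pool.Agent.LRG (Indep Bdd)
open Pool.Agent.LRN (IsNew MaxNew)
open Pool.Agent.LRS

/-- the quadratic form of an equivalence relation is a sum of squares -/
theorem class_identity {ι : Type*} [Fintype ι] (R : ι → ι → Prop) [DecidableRel R]
    (hr : ∀ a, R a a) (hs : ∀ a b, R a b → R b a) (ht : ∀ a b c, R a b → R b c → R a c)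
    (x : ι → ℝ) :
    ∑ σ, x σ * (∑ τ, if R σ τ then x τ else 0) =
      ∑ σ, (∑ τ, if R σ τ then x τ else 0) ^ 2 / (∑ τ, if R σ τ then (1 : ℝ) else 0) := by
  classical
  set y : ι → ℝ := fun σ => ∑ τ, if R σ τ then x τ else 0 with hy
  set c : ι → ℝ := fun σ => ∑ τ, if R σ τ then (1 : ℝ) else 0 with hc
  have hiff : ∀ a b, R a b → ∀ d, (R a d ↔ R b d) := fun a b h d =>
    ⟨fun h' => ht _ _ _ (hs _ _ h) h', fun h' => ht _ _ _ h h'⟩
  have hyy : ∀ a b, R a b → y a = y b := by
    intro a b h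
    refine Finset.sum_congr rfl fun d _ => ?_
    simp only [hiff a b h d]
  have hcc : ∀ a b, R a b → c a = c b := by
    intro a b h
    refine Finset.sum_congr rfl fun d _ => ?_
    simp only [hiff a b h d]
  have hcpos : ∀ a, 0 < c a := by
    intro a
    have h1 : (if R a a then (1 : ℝ) else 0) ≤ c a :=
      Finset.single_le_sum (f := fun τ => if R a τ then (1 : ℝ) else 0)
        (fun τ _ => by split_ifs <;> norm_num) (Finset.mem_univ a)
    rw [if_pos (hr a)] at h1
    linarith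
  have h1 : ∀ σ, y σ ^ 2 / c σ = ∑ τ, if R σ τ then (y τ / c τ) * x τ else 0 := by
    intro σ
    have : y σ ^ 2 / c σ = (y σ / c σ) * ∑ τ, (if R σ τ then x τ else 0) := by
      rw [sq]
      ring
    rw [this, Finset.mul_sum]
    refine Finset.sum_congr rfl fun τ _ => ?_
    split_ifs with h
    · rw [hyy σ τ h, hcc σ τ h]
    · simp
  rw [Finset.sum_congr rfl fun σ _ => h1 σ, Finset.sum_comm]
  refine Finset.sum_congr rfl fun τ _ => ?_
  have h2 : ∑ σ, (if R σ τ then (y τ / c τ) * x τ else 0) = ((y τ / c τ) * x τ) * c τ := by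
    rw [hc, Finset.mul_sum]
    refine Finset.sum_congr rfl fun σ _ => ?_
    by_cases h : R σ τ
    · rw [if_pos h, if_pos (hs _ _ h), mul_one]
    · rw [if_neg h, if_neg (fun h' => h (hs _ _ h')), mul_zero]
  rw [h2]
  have := (hcpos τ).ne'
  show x τ * y τ = y τ / c τ * x τ * c τ
  field_simp

theorem unit_coe_ne_zero {K : Type} [Field K] [NumberField K] (u : (𝓞 K)ˣ) :
    ((u : 𝓞 K) : K) ≠ 0 := by
  intro h
  apply u.ne_zero
  exact NumberField.RingOfIntegers.ext (by rw [h]; simp)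

theorem log_norm_prod {K : Type} [Field K] [NumberField K] {ι : Type*} (S : Finset ι)
    (g : ι → (𝓞 K)ˣ) (σ : K →+* ℂ) :
    Real.log ‖σ (((∏ i ∈ S, g i : (𝓞 K)ˣ) : 𝓞 K) : K)‖ =
      ∑ i ∈ S, Real.log ‖σ ((g i : 𝓞 K) : K)‖ := by
  classical
  induction S using Finset.induction_on with
  | empty => simp
  | insert a s ha ih =>
    rw [Finset.prod_insert ha, Finset.sum_insert ha, ← ih]
    have e1 : (((g a * ∏ x ∈ s, g x : (𝓞 K)ˣ) : 𝓞 K) : K) =
        ((g a : 𝓞 K) : K) * (((∏ x ∈ s, g x : (𝓞 K)ˣ) : 𝓞 K) : K) := by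
      rw [Units.val_mul]
      exact map_mul (algebraMap (𝓞 K) K) _ _
    rw [e1, map_mul, norm_mul, Real.log_mul]
    · rw [norm_ne_zero_iff, _root_.map_ne_zero]
      exact unit_coe_ne_zero _
    · rw [norm_ne_zero_iff, _root_.map_ne_zero]
      exact unit_coe_ne_zero _

theorem avg (hSBF : SbfStmt) (hAVE : AveStmt) : AvgStmt := by
  classical
  intro K _ _ n hn
  obtain ⟨hfin, hcard⟩ := hSBF K n hn
  have : Fintype (IntermediateField ℚ K) := Fintype.ofFinite _
  choose A hA1 hA2 hA3 using hAVE K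
  let S : Finset (IntermediateField ℚ K) := Finset.univ.filter (fun E => E ≠ ⊤)
  let R : IntermediateField ℚ K → (K →+* ℂ) → (K →+* ℂ) → Prop :=
    fun E σ τ => ∀ b ∈ E, τ b = σ b
  have hr : ∀ E a, R E a a := fun E a b _ => rfl
  have hs : ∀ E a b, R E a b → R E b a := fun E a b h x hx => (h x hx).symm
  have ht : ∀ E a b c, R E a b → R E b c → R E a c := fun E a b c h h' x hx =>
    (h' x hx).trans (h x hx)
  let P : Matrix (K →+* ℂ) (K →+* ℂ) ℤ := fun σ τ =>
    ((S.filter (fun E => R E σ τ)).card : ℤ)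
  have hfs : ∀ (E : IntermediateField ℚ K) (σ : K →+* ℂ) (x : (K →+* ℂ) → ℝ),
      ∑ᶠ τ ∈ {τ : K →+* ℂ | ∀ b ∈ E, τ b = σ b}, x τ = ∑ τ, if R E σ τ then x τ else 0 := by
    intro E σ x
    rw [finsum_mem_def, finsum_eq_sum_of_fintype]
    refine Finset.sum_congr rfl fun τ _ => ?_
    rw [Set.indicator_apply]
    rfl
  have hP : ∀ (σ : K →+* ℂ) (x : (K →+* ℂ) → ℝ), ∑ τ : K →+* ℂ, (P σ τ : ℝ) * x τ =
      ∑ E ∈ S, ∑ τ, if R E σ τ then x τ else 0 := by
    intro σ x
    rw [Finset.sum_comm]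
    refine Finset.sum_congr rfl fun τ _ => ?_
    have : (P σ τ : ℝ) = ∑ E ∈ S, if R E σ τ then (1 : ℝ) else 0 := by
      show (((S.filter (fun E => R E σ τ)).card : ℤ) : ℝ) = _
      rw [Finset.card_filter]
      push_cast
      rfl
    rw [this, Finset.sum_mul]
    refine Finset.sum_congr rfl fun E _ => ?_
    split_ifs <;> simp
  refine ⟨∏ E ∈ S, A E, P, ?_, ?_, ?_, ?_, ?_⟩
  · ext σ τ
    show ((S.filter (fun E => R E τ σ)).card : ℤ) = ((S.filter (fun E => R E σ τ)).card : ℤ)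
    congr 2
    ext E
    simp only [Finset.mem_filter]
    exact and_congr_right fun _ => ⟨hs E _ _, hs E _ _⟩
  · intro σ τ
    constructor
    · exact Int.natCast_nonneg _
    · show ((S.filter (fun E => R E σ τ)).card : ℤ) ≤ 2 ^ (n * n)
      have h1 : (S.filter (fun E => R E σ τ)).card ≤ 2 ^ (n * n) := by
        refine (Finset.card_le_univ _).trans ?_
        rw [← Nat.card_eq_fintype_card]
        exact hcard
      exact_mod_cast h1
  · intro u σ
    rw [hP σ (fun τ => Real.log ‖τ ((u : 𝓞 K) : K)‖), MonoidHom.finsetProd_apply,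
      log_norm_prod]
    refine Finset.sum_congr rfl fun E _ => ?_
    rw [hA2 E u σ, hfs]
  · intro u hu
    have h1 : ∀ E : IntermediateField ℚ K, ∃ N : ℕ, 0 < N ∧ (E ∈ S → A E u ^ N = 1) := by
      intro E
      by_cases hE : E ∈ S
      · obtain ⟨N, hN, h⟩ := hu E (Finset.mem_filter.mp hE).2
        refine ⟨N, hN, fun _ => ?_⟩
        apply Units.ext
        apply NumberField.RingOfIntegers.ext
        have e1 : (((A E u ^ N : (𝓞 K)ˣ) : 𝓞 K) : K) = ((A E u : 𝓞 K) : K) ^ N := by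
          rw [Units.val_pow_eq_pow_val]
          exact map_pow (algebraMap (𝓞 K) K) _ _
        rw [e1, hA1, ← map_pow, h]
        simp
      · exact ⟨1, one_pos, fun h => absurd h hE⟩
    choose N hN0 hN using h1
    refine ⟨∏ E ∈ S, N E, Finset.prod_pos fun E _ => hN0 E, ?_⟩
    rw [MonoidHom.finsetProd_apply, ← Finset.prod_pow]
    refine Finset.prod_eq_one fun E hE => ?_
    rw [← Finset.mul_prod_erase S N hE, pow_mul, hN E hE, one_pow]
  · intro u hu
    set x : (K →+* ℂ) → ℝ := fun τ => Real.log ‖τ ((u : 𝓞 K) : K)‖ with hx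
    have h0 : ∑ E ∈ S, ∑ σ, x σ * (∑ τ, if R E σ τ then x τ else 0) = 0 := by
      rw [Finset.sum_comm]
      refine Finset.sum_eq_zero fun σ _ => ?_
      rw [← Finset.mul_sum, ← hP σ x, hu σ, mul_zero]
    have h1 : ∀ E ∈ S, ∑ σ, (∑ τ, if R E σ τ then x τ else 0) ^ 2 /
        (∑ τ, if R E σ τ then (1 : ℝ) else 0) = 0 := by
      have h2 : ∑ E ∈ S, ∑ σ, (∑ τ, if R E σ τ then x τ else 0) ^ 2 /
          (∑ τ, if R E σ τ then (1 : ℝ) else 0) = 0 :=
        Eq.trans (Finset.sum_congr rfl fun E _ =>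
          (class_identity (R E) (hr E) (hs E) (ht E) x).symm) h0
      refine (Finset.sum_eq_zero_iff_of_nonneg fun E _ => ?_).mp h2
      refine Finset.sum_nonneg fun σ _ => div_nonneg (sq_nonneg _) ?_
      exact Finset.sum_nonneg fun τ _ => by split_ifs <;> norm_num
    intro E hE
    have hES : E ∈ S := Finset.mem_filter.mpr ⟨Finset.mem_univ _, hE⟩
    apply hA3 E u
    intro σ
    rw [hfs E σ x]
    have h3 := (Finset.sum_eq_zero_iff_of_nonneg (fun σ _ => div_nonneg (sq_nonneg _)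
      (Finset.sum_nonneg fun τ _ => by split_ifs <;> norm_num))).mp (h1 E hES) σ
      (Finset.mem_univ σ)
    have hc : 0 < ∑ τ, (if R E σ τ then (1 : ℝ) else 0) := by
      have h4 : (if R E σ σ then (1 : ℝ) else 0) ≤ ∑ τ, (if R E σ τ then (1 : ℝ) else 0) :=
        Finset.single_le_sum (f := fun τ => if R E σ τ then (1 : ℝ) else 0)
          (fun τ _ => by split_ifs <;> norm_num) (Finset.mem_univ σ)
      rw [if_pos (hr E σ)] at h4
      linarith
    rcases div_eq_zero_iff.mp h3 with h | h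
    · exact pow_eq_zero_iff (two_ne_zero) |>.mp h
    · exact absurd h hc.ne'

end Pool.Agent.LRS.H88
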